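import Pool.Agent.Helper12.MA.StC
import Pool.Agent.Helper12.MA.Lib

/-!
# Project MA (MP_d63854_co): module WST, the structure of the neighbourhood of `v`
-/

set_option autoImplicit false

namespace Pool.Agent.Helper90.MA

open Pool.Agent.Helper12.MA
open Pool.Agent.Helper51.AJ (IsMinor Planar Apex ExMinor Con Tch)
open Pool.Agent.Helper12.NK (rst Kc add cnt Pcy IsFace Cof plus)

/-- counting: a set with at least five elements covered by a point, two sets with at most one element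
and one with at most two elements -/
private theorem count5 {V : Type} [Finite V] (N AH AP AQ : Set V) (z : V) (h5 : 5 ≤ N.ncard)
    (hN : N ⊆ insert z (AH ∪ AP ∪ AQ)) (hH : AH.ncard ≤ 2) (hP : AP.ncard ≤ 1) (hQ : AQ.ncard ≤ 1) :
    ∃ s s' w w', AH = {s, s'} ∧ AP = {w'} ∧ AQ = {w} ∧ s ≠ s' ∧ w ≠ w' ∧ w ≠ s ∧ w ≠ s' ∧ w' ≠ s ∧
      w' ≠ s' := by
  have k1 : N.ncard ≤ (AH ∪ AP ∪ AQ).ncard + 1 :=
    (Set.ncard_le_ncard hN (Set.toFinite _)).trans (Set.ncard_insert_le _ _)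
  have k2 : (AH ∪ AP ∪ AQ).ncard ≤ (AH ∪ AP).ncard + AQ.ncard := Set.ncard_union_le _ _
  have k3 : (AH ∪ AP).ncard ≤ AH.ncard + AP.ncard := Set.ncard_union_le _ _
  have k4 : (AH ∪ AQ).ncard ≤ AH.ncard + AQ.ncard := Set.ncard_union_le _ _
  obtain ⟨s, s', hss, hAH⟩ := Set.ncard_eq_two.1 (show AH.ncard = 2 by omega)
  obtain ⟨w', hAP⟩ := Set.ncard_eq_one.1 (show AP.ncard = 1 by omega)
  obtain ⟨w, hAQ⟩ := Set.ncard_eq_one.1 (show AQ.ncard = 1 by omega)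
  have e1 : w ∉ AH ∪ AP := by
    intro hw
    have h1 : AH ∪ AP ∪ AQ = AH ∪ AP := by
      refine Set.union_eq_self_of_subset_right ?_
      rw [hAQ]
      exact Set.singleton_subset_iff.2 hw
    rw [h1] at k1
    omega
  have e2 : w' ∉ AH := by
    intro hw
    have h1 : AH ∪ AP = AH := by
      refine Set.union_eq_self_of_subset_right ?_
      rw [hAP]
      exact Set.singleton_subset_iff.2 hw
    rw [h1] at k1
    omega
  have e3 : w ∉ AH := fun h => e1 (Or.inl h)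
  have e4 : w ≠ w' := fun h => e1 (Or.inr (by rw [hAP, h]; exact Set.mem_singleton _))
  rw [hAH] at e2 e3
  refine ⟨s, s', w, w', hAH, hAP, hAQ, hss, e4, ?_, ?_, ?_, ?_⟩
  · intro h
    exact e3 (Or.inl h)
  · intro h
    exact e3 (Or.inr h)
  · intro h
    exact e2 (Or.inl h)
  · intro h
    exact e2 (Or.inr h)

theorem hWST : StFNB → StBAS → StCRN → StHFA → StCLS → StHTR → StPVB → StOTC → StNCU → StWST := by
  intro hFNB hBAS hCRN hHFA hCLS hHTR hPVB hOTC hNCU V _ G z v p q r r' f1 f2 f3 f4 cf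
  classical
  obtain ⟨_, _, _, b4, b5, _, _⟩ := hBAS V G cf.bh
  obtain ⟨c1, c2, c3, c4, c5, c6⟩ := hCRN V G z v p q r r' f1 f2 f3 f4 cf
  obtain ⟨h1, _, _, _, h5⟩ := hHFA V G z v p q r r' f1 f2 f3 f4 cf
  obtain ⟨l1, l2, l3, l4⟩ := hCLS V G z v p q r r' f1 f2 f3 f4 cf
  obtain ⟨np, nq⟩ := hPVB V G z v p q r r' f1 f2 f3 f4 cf
  have hP : Pn (dl G p q) {v}ᶜ := ⟨b5 v p q, cf.ds.pl⟩
  obtain ⟨_, _, _, _, _, n6⟩ := hFNB V (dl G p q) {v}ᶜ hP
  obtain ⟨_, _, _, m4, _, _⟩ := hFNB V G {z, v}ᶜ h1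
  have hvz : G.Adj v z := ((cf.ds.nb v).2 (Or.inl rfl)).symm
  -- the types
  have hty : ∀ w, G.Adj v w → w ≠ z → (∃ F, TH G z v w F) ∨ TP G z v p q w ∨ TQ G z v p q w := by
    intro w hw hwz
    rcases l1 w hw hwz with h | h | h | ⟨t, Γ, h⟩
    · exact Or.inl h
    · exact Or.inr (Or.inl h)
    · exact Or.inr (Or.inr h)
    · exfalso
      obtain ⟨b, X, Y, h | h | h | h⟩ := hOTC V G z v p q r r' f1 f2 f3 f4 cf t Γ h.1
      · exact (hNCU V G z v p q r r' f1 f2 f3 f4 cf t b X Y).1 h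
      · exact (hNCU V G z v p q r r' f1 f2 f3 f4 cf b t X Y).1 h
      · exact (hNCU V G z v p q r r' f1 f2 f3 f4 cf t b X Y).2 h
      · exact (hNCU V G z v p q r r' f1 f2 f3 f4 cf b t X Y).2 h
  have hH : ({w | G.Adj v w ∧ w ≠ z ∧ ∃ F, TH G z v w F} : Set V).ncard ≤ 2 := by
    by_contra hcon
    rw [not_le, Set.two_lt_ncard_iff (Set.toFinite _)] at hcon
    obtain ⟨a, b, c, ⟨ha, haz, F₁, hF₁⟩, ⟨hb, hbz, F₂, hF₂⟩, ⟨hc, hcz, F₃, hF₃⟩, hab, hac, hbc⟩ := hcon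
    exact hHTR V G z v p q r r' f1 f2 f3 f4 cf a b c F₁ F₂ F₃ ha hb hc haz hbz hcz hab hbc hac
      hF₁ hF₂ hF₃
  have hAP : ({w | G.Adj v w ∧ w ≠ z ∧ TP G z v p q w} : Set V).ncard ≤ 1 := by
    rw [Set.ncard_le_one (Set.toFinite _)]
    rintro a ⟨_, _, ha⟩ b ⟨_, _, hb⟩
    by_contra hab
    refine l3 (fun x hx => ?_)
    by_cases hxa : x = a
    · refine hb ⟨hx.1, ?_⟩
      rintro (h | h)
      · exact hx.2 h
      · exact hab (hxa ▸ h)
    · refine ha ⟨hx.1, ?_⟩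
      rintro (h | h)
      · exact hx.2 h
      · exact hxa h
  have hAQ : ({w | G.Adj v w ∧ w ≠ z ∧ TQ G z v p q w} : Set V).ncard ≤ 1 := by
    rw [Set.ncard_le_one (Set.toFinite _)]
    rintro a ⟨_, _, ha⟩ b ⟨_, _, hb⟩
    by_contra hab
    refine l4 (fun x hx => ?_)
    by_cases hxa : x = a
    · refine hb ⟨hx.1, ?_⟩
      rintro (h | h)
      · exact hx.2 h
      · exact hab (hxa ▸ h)
    · refine ha ⟨hx.1, ?_⟩
      rintro (h | h)
      · exact hx.2 h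
      · exact hxa h
  obtain ⟨s, s', w, w', eH, eP, eQ, hss, hww, hws, hws', hw's, hw's'⟩ :=
    count5 {a | G.Adj v a} _ _ _ z (b4 v) (fun a ha => by
      by_cases haz : a = z
      · exact Or.inl haz
      · right
        rcases hty a ha haz with h | h | h
        · exact Or.inl (Or.inl ⟨ha, haz, h⟩)
        · exact Or.inl (Or.inr ⟨ha, haz, h⟩)
        · exact Or.inr ⟨ha, haz, h⟩) hH hAP hAQ
  obtain ⟨hs1, hs2, F₁, hF₁⟩ : s ∈ {w | G.Adj v w ∧ w ≠ z ∧ ∃ F, TH G z v w F} := by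
    rw [eH]
    exact Or.inl rfl
  obtain ⟨hs'1, hs'2, F₂, hF₂⟩ : s' ∈ {w | G.Adj v w ∧ w ≠ z ∧ ∃ F, TH G z v w F} := by
    rw [eH]
    exact Or.inr rfl
  obtain ⟨hw'1, hw'2, hw'3⟩ : w' ∈ {w | G.Adj v w ∧ w ≠ z ∧ TP G z v p q w} := by
    rw [eP]
    exact rfl
  obtain ⟨hw1, hw2, hw3⟩ : w ∈ {w | G.Adj v w ∧ w ≠ z ∧ TQ G z v p q w} := by
    rw [eQ]
    exact rfl
  have hN : ∀ a, G.Adj v a ↔ a = z ∨ a = w ∨ a = w' ∨ a = s ∨ a = s' := by
    intro a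
    constructor
    · intro ha
      by_cases haz : a = z
      · exact Or.inl haz
      · right
        rcases hty a ha haz with h | h | h
        · have h' : a ∈ {w | G.Adj v w ∧ w ≠ z ∧ ∃ F, TH G z v w F} := ⟨ha, haz, h⟩
          rw [eH] at h'
          rcases h' with h' | h'
          · exact Or.inr (Or.inr (Or.inl h'))
          · exact Or.inr (Or.inr (Or.inr h'))
        · have h' : a ∈ {w | G.Adj v w ∧ w ≠ z ∧ TP G z v p q w} := ⟨ha, haz, h⟩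
          rw [eP] at h'
          exact Or.inr (Or.inl h')
        · have h' : a ∈ {w | G.Adj v w ∧ w ≠ z ∧ TQ G z v p q w} := ⟨ha, haz, h⟩
          rw [eQ] at h'
          exact Or.inl h'
    · rintro (h | h | h | h | h)
      · rw [h]; exact hvz
      · rw [h]; exact hw1
      · rw [h]; exact hw'1
      · rw [h]; exact hs1
      · rw [h]; exact hs'1
  have hap : ∀ a, G.Adj v a → a ≠ p := fun a ha h => np (h ▸ ha)
  have haq : ∀ a, G.Adj v a → a ≠ q := fun a ha h => nq (h ▸ ha)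
  have hcp : ∀ a, G.Adj v a → a ≠ z → a ≠ w' → Cof (dl G p q) {v}ᶜ p a := by
    intro a ha haz haw
    rcases hw'3 (show a ∈ {a | G.Adj v a} \ {z, w'} from ⟨ha, by
      rintro (h | h)
      · exact haz h
      · exact haw h⟩) with h | h
    · exact absurd h (hap a ha)
    · exact h
  have hcq : ∀ a, G.Adj v a → a ≠ z → a ≠ w → Cof (dl G p q) {v}ᶜ q a := by
    intro a ha haz haw
    rcases hw3 (show a ∈ {a | G.Adj v a} \ {z, w} from ⟨ha, by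
      rintro (h | h)
      · exact haz h
      · exact haw h⟩) with h | h
    · exact absurd h (haq a ha)
    · exact h
  have hnp : ¬ Cof (dl G p q) {v}ᶜ p w' := by
    intro h
    refine l3 (fun x hx => ?_)
    by_cases hxa : x = w'
    · exact Or.inr (hxa ▸ h)
    · exact Or.inr (hcp x hx.1 hx.2 hxa)
  have hnq : ¬ Cof (dl G p q) {v}ᶜ q w := by
    intro h
    refine l4 (fun x hx => ?_)
    by_cases hxa : x = w
    · exact Or.inr (hxa ▸ h)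
    · exact Or.inr (hcq x hx.1 hx.2 hxa)
  have hsF₁ : s ∉ F₁ := by
    intro h
    refine l2 F₁ hF₁.1 (fun x hx => ?_)
    by_cases hxa : x = s
    · exact hxa ▸ h
    · refine hF₁.2 ⟨hx.1, ?_⟩
      rintro (h | h)
      · exact hx.2 h
      · exact hxa h
  have hmF₁ : ∀ x, G.Adj v x → x ≠ z → x ≠ s → x ∈ F₁ := by
    intro x hx hxz hxs
    refine hF₁.2 ⟨hx, ?_⟩
    rintro (h | h)
    · exact hxz h
    · exact hxs h
  have hmF₂ : ∀ x, G.Adj v x → x ≠ z → x ≠ s' → x ∈ F₂ := by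
    intro x hx hxz hxs
    refine hF₂.2 ⟨hx, ?_⟩
    rintro (h | h)
    · exact hxz h
    · exact hxs h
  have hFF : F₁ ≠ F₂ := by
    intro h
    exact hsF₁ (h ▸ hmF₂ s hs1 hs2 hss)
  have hadj : G.Adj w w' := by
    by_contra hcon
    exact hFF (m4 F₁ F₂ hF₁.1 hF₂.1 w w' (hmF₁ w hw1 hw2 hws) (hmF₁ w' hw'1 hw'2 hw's)
      (hmF₂ w hw1 hw2 hws') (hmF₂ w' hw'1 hw'2 hw's') hww hcon)
  have hwv : w ≠ v := hw1.ne'
  have hw'v : w' ≠ v := hw'1.ne'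
  have hcof : Cof (dl G p q) {v}ᶜ w w' := by
    refine n6 w hwv w' hw'v ⟨hadj, ?_, ?_⟩
    · rintro ⟨h, _⟩
      exact hap w hw1 h
    · rintro ⟨h, _⟩
      exact haq w hw1 h
  have hcof' : Cof (dl G p q) {v}ᶜ w' w := by
    obtain ⟨F, hF, hx, hy⟩ := hcof
    exact ⟨F, hF, hy, hx⟩
  have hcpw : Cof (dl G p q) {v}ᶜ p w := hcp w hw1 hw2 hww
  have hcqw : Cof (dl G p q) {v}ᶜ q w' := hcq w' hw'1 hw'2 hww.symm
  have key : ∀ F, IsFace G {z, v}ᶜ F → w ∈ F → w' ∈ F → IsFace (dl G p q) {v}ᶜ F ∧ z ∉ F := by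
    intro F hF hwF hw'F
    rcases h5 F hF with h | h | h
    · exfalso
      rw [h] at hwF hw'F
      have e1 : w ∉ f2 := by
        intro k
        have k2 := c2 w k hw2 hcpw
        exact hnq ⟨f2, cf.i2, cf.q2, k⟩
      have e2 : w' ∉ f1 := by
        intro k
        exact hnp ⟨f1, cf.i1, cf.p1, k⟩
      have e3 : w ∈ f1 := hwF.1.resolve_right e1
      have e4 : w' ∈ f2 := hw'F.1.resolve_left e2
      exact c5 w e3 w' e4 hw2 (fun k => e1 (k ▸ cf.r2)) hw'2 (fun k => e2 (k ▸ cf.r1)) hcof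
    · exfalso
      rw [h] at hwF hw'F
      have e1 : w ∉ f3 := by
        intro k
        exact hnq ⟨f3, cf.i3, cf.q3, k⟩
      have e2 : w' ∉ f4 := by
        intro k
        exact hnp ⟨f4, cf.i4, cf.p4, k⟩
      have e3 : w ∈ f4 := hwF.1.resolve_left e1
      have e4 : w' ∈ f3 := hw'F.1.resolve_right e2
      exact c6 w' e4 w e3 hw'2 (fun k => e2 (k ▸ cf.s4)) hw2 (fun k => e1 (k ▸ cf.s3)) hcof'
    · exact h
  obtain ⟨g1, g2⟩ := key F₁ hF₁.1 (hmF₁ w hw1 hw2 hws) (hmF₁ w' hw'1 hw'2 hw's)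
  obtain ⟨g3, g4⟩ := key F₂ hF₂.1 (hmF₂ w hw1 hw2 hws') (hmF₂ w' hw'1 hw'2 hw's')
  refine ⟨w, w', s, s', F₁, F₂, hN, hww, hss, hadj, g1, g3, hFF, g2, g4, hmF₁ w hw1 hw2 hws,
    hmF₁ w' hw'1 hw'2 hw's, hmF₁ s' hs'1 hs'2 hss.symm, hmF₂ w hw1 hw2 hws',
    hmF₂ w' hw'1 hw'2 hw's', hmF₂ s hs1 hs2 hss, ?_, ?_, ?_, ?_, ?_, ?_, hnp, hnq⟩
  · intro h
    exact hnp ⟨F₁, g1, h, hmF₁ w' hw'1 hw'2 hw's⟩
  · intro h
    exact hnq ⟨F₁, g1, h, hmF₁ w hw1 hw2 hws⟩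
  · intro h
    exact hnp ⟨F₂, g3, h, hmF₂ w' hw'1 hw'2 hw's'⟩
  · intro h
    exact hnq ⟨F₂, g3, h, hmF₂ w hw1 hw2 hws'⟩
  · rintro a (h | h | h)
    · rw [h]
      exact ⟨hap w hw1, hw2, hw1.ne', hcpw⟩
    · rw [h]
      exact ⟨hap s hs1, hs2, hs1.ne', hcp s hs1 hs2 hw's.symm⟩
    · rw [h]
      exact ⟨hap s' hs'1, hs'2, hs'1.ne', hcp s' hs'1 hs'2 hw's'.symm⟩
  · rintro a (h | h | h)
    · rw [h]
      exact ⟨haq w' hw'1, hw'2, hw'1.ne', hcqw⟩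
    · rw [h]
      exact ⟨haq s hs1, hs2, hs1.ne', hcq s hs1 hs2 hws.symm⟩
    · rw [h]
      exact ⟨haq s' hs'1, hs'2, hs'1.ne', hcq s' hs'1 hs'2 hws'.symm⟩

end Pool.Agent.Helper90.MA
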